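import Pool.Agent.H20.Morse.Cay

/-! Module B for MP_b587bd_al (blueprint of helper20): a finitely generated group with linear
detours around the identity at all large scales (`Wide`) has no Morse geodesic ray. -/

set_option autoImplicit false

namespace Pool.Agent.H67.Morse

open Pool.Agent.H20.Morse

section graph
variable {V : Type} {g : SimpleGraph V}

/-- Weighted length of a path (the last vertex is not counted). -/
def cost (w : V → ℕ) (T : ℕ) (p : ℕ → V) : ℕ := ∑ t ∈ Finset.range T, w (p t)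

theorem cost_append (w : V → ℕ) {T T' : ℕ} {p p' r : ℕ → V} (h1 : ∀ t ≤ T, r t = p t)
    (h2 : ∀ t ≤ T', r (T + t) = p' t) : cost w (T + T') r = cost w T p + cost w T' p' := by
  unfold cost
  rw [Finset.sum_range_add]
  congr 1
  · refine Finset.sum_congr rfl fun t ht => ?_
    rw [h1 t (Finset.mem_range.mp ht).le]
  · refine Finset.sum_congr rfl fun t ht => ?_
    rw [h2 t (Finset.mem_range.mp ht).le]

theorem cost_le (w : V → ℕ) {W : ℕ} (hw : ∀ v, w v ≤ W) (T : ℕ) (p : ℕ → V) :
    cost w T p ≤ W * T := by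
  unfold cost
  calc ∑ t ∈ Finset.range T, w (p t) ≤ ∑ _t ∈ Finset.range T, W :=
        Finset.sum_le_sum fun t _ => hw _
    _ = W * T := by simp [mul_comm]

theorem le_cost (w : V → ℕ) (hw : ∀ v, 1 ≤ w v) (T : ℕ) (p : ℕ → V) : T ≤ cost w T p := by
  unfold cost
  calc T = ∑ _t ∈ Finset.range T, 1 := by simp
    _ ≤ ∑ t ∈ Finset.range T, w (p t) := Finset.sum_le_sum fun t _ => hw _

/-- Cheapest paths are quasi-geodesics. -/
theorem exists_cheapest (hc : g.Connected) (w : V → ℕ) (W : ℕ) (hw1 : ∀ v, 1 ≤ w v)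
    (hw : ∀ v, w v ≤ W) {x y : V} {T0 : ℕ} {p0 : ℕ → V} (h0 : p0 0 = x) (hT : p0 T0 = y)
    (hp : IsPath g T0 p0) :
    ∃ (L : ℕ) (q : ℕ → V), q 0 = x ∧ q L = y ∧ IsPath g L q ∧ cost w L q ≤ cost w T0 p0 ∧
      ∀ i j, i ≤ j → j ≤ L → j - i ≤ W * g.dist (q i) (q j) := by
  classical
  have hex : ∃ n, ∃ (L : ℕ) (q : ℕ → V), q 0 = x ∧ q L = y ∧ IsPath g L q ∧ cost w L q = n :=
    ⟨_, T0, p0, h0, hT, hp, rfl⟩
  obtain ⟨L, q, q0, qL, hq, hcost⟩ := Nat.find_spec hex
  have hmin : ∀ (L' : ℕ) (q' : ℕ → V), q' 0 = x → q' L' = y → IsPath g L' q' →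
      cost w L q ≤ cost w L' q' := by
    intro L' q' a b c
    rw [hcost]
    exact Nat.find_min' hex ⟨L', q', a, b, c, rfl⟩
  refine ⟨L, q, q0, qL, hq, hmin T0 p0 h0 hT hp, ?_⟩
  intro i j hij hjL
  obtain ⟨r, r0, rd, hr, -⟩ := exists_geodesic hc (q i) (q j)
  obtain ⟨s, s0, sd, hs, hs1, hs2⟩ := (hq.mono (hij.trans hjL)).append hr r0.symm
  have hq3 := hq.shift j hjL
  obtain ⟨u, u0, ud, hu, hu1, hu2⟩ := hs.append hq3 (by rw [sd, rd, Nat.add_zero])
  have c1 := cost_append w hs1 hs2
  have c2 := cost_append w hu1 hu2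
  have c3 := hmin _ u (by rw [u0, s0, q0]) (by
    rw [ud, Nat.add_sub_cancel' hjL, qL]) hu
  have c4 : cost w (i + (j - i)) q = cost w i q + cost w (j - i) (fun t => q (i + t)) :=
    cost_append w (fun t _ => rfl) (fun t _ => rfl)
  have c5 : cost w (j + (L - j)) q = cost w j q + cost w (L - j) (fun t => q (j + t)) :=
    cost_append w (fun t _ => rfl) (fun t _ => rfl)
  rw [Nat.add_sub_cancel' hij] at c4
  rw [Nat.add_sub_cancel' hjL] at c5
  have c6 := cost_le w hw (g.dist (q i) (q j)) r
  have c7 := le_cost w hw1 (j - i) (fun t => q (i + t))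
  omega

end graph

/-- Module B. -/
theorem modB : TargetB := by
  intro Γ _ S hS hWide
  rintro ⟨γ, hγ, N, hN⟩
  obtain ⟨C1, D1, k0, hwide⟩ := hWide
  have hc := cay_connected hS
  have hgd : ∀ m n : ℕ, m ≤ n → (cay S).dist (γ m) (γ n) = n - m := by
    intro m n hmn
    have h := hγ m n
    have hmn' : (m : ℝ) ≤ n := by exact_mod_cast hmn
    rw [abs_sub_comm, abs_of_nonneg (by linarith)] at h
    have h2 : (((cay S).dist (γ m) (γ n) + m : ℕ) : ℝ) = (n : ℝ) := by
      push_cast
      linarith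
    have h3 : (cay S).dist (γ m) (γ n) + m = n := by exact_mod_cast h2
    omega
  set D : ℕ := D1 + 1 with hD
  set W : ℕ := 2 * (C1 * D) + 1 with hW
  set N0 : ℕ := ⌈N (W : ℝ) 0⌉₊ with hN0
  set M : ℕ := 3 * N0 + 1 with hM
  set m : ℕ := 2 * (M + 1) + k0 with hm
  set k : ℕ := D * m with hk
  have hmk : m ≤ k := by
    rw [hk]
    exact Nat.le_mul_of_pos_left m (by omega)
  have hk0 : k0 ≤ k := by omega
  set z : Γ := γ k with hz
  obtain ⟨T, p, hT, hp0, hpT, hp, hfar⟩ := hwide k hk0 (z⁻¹ * γ 0) (z⁻¹ * γ (2 * k))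
    (by
      rw [← cay_dist_one hS, SimpleGraph.dist_comm, hgd 0 k (Nat.zero_le _)]
      omega)
    (by
      rw [← cay_dist_one hS, hgd k (2 * k) (by omega)]
      omega)
  have hp' := isPath_mul hp z
  have hdz : ∀ t, (cay S).dist z (z * p t) = (cay S).dist 1 (p t) := by
    intro t
    rw [cay_dist_one hS]
    congr 1
    group
  classical
  let w : Γ → ℕ := fun v => if D * (cay S).dist z v < k then W else 1
  have hw1 : ∀ v, 1 ≤ w v := by
    intro v
    simp only [w]
    split_ifs <;> omega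
  have hw : ∀ v, w v ≤ W := by
    intro v
    simp only [w]
    split_ifs <;> omega
  obtain ⟨L, q, hq0, hqL, hq, hcost, hqg⟩ := exists_cheapest hc w W hw1 hw
    (x := γ 0) (y := γ (2 * k)) (T0 := T) (p0 := fun t => z * p t)
    (by simp [hp0]) (by simp [hpT]) hp'
  have hcost0 : cost w T (fun t => z * p t) ≤ C1 * k := by
    refine le_trans ?_ hT
    unfold cost
    calc ∑ t ∈ Finset.range T, w (z * p t) ≤ ∑ _t ∈ Finset.range T, 1 := by
          refine Finset.sum_le_sum fun t ht => ?_
          simp only [w]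
          rw [hdz, if_neg]
          have := hfar t (Finset.mem_range.mp ht).le
          rw [not_lt]
          refine this.trans ?_
          exact Nat.mul_le_mul_right _ (by omega)
      _ = T := by simp
  -- quasi-geodesic
  have hW1 : (1 : ℝ) ≤ (W : ℝ) := by
    have : 1 ≤ W := by omega
    exact_mod_cast this
  have hWpos : (0 : ℝ) < (W : ℝ) := by linarith
  have key : ∀ i j : ℕ, i ≤ j → j ≤ L →
      |(i : ℝ) - (j : ℝ)| / W - 0 ≤ (((cay S).dist (q i) (q j) : ℕ) : ℝ) ∧
        (((cay S).dist (q i) (q j) : ℕ) : ℝ) ≤ W * |(i : ℝ) - (j : ℝ)| + 0 := by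
    intro i j hij hjL
    have hij' : (i : ℝ) ≤ j := by exact_mod_cast hij
    rw [abs_sub_comm, abs_of_nonneg (by linarith)]
    have h1 := hqg i j hij hjL
    have h2 := hq.dist_le' hij hjL
    have h1' : (j : ℝ) - i ≤ W * (((cay S).dist (q i) (q j) : ℕ) : ℝ) := by
      have : j ≤ W * (cay S).dist (q i) (q j) + i := by omega
      have h3 : (j : ℝ) ≤ W * (((cay S).dist (q i) (q j) : ℕ) : ℝ) + i := by exact_mod_cast this
      linarith
    have h2' : (((cay S).dist (q i) (q j) : ℕ) : ℝ) ≤ (j : ℝ) - i := by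
      have : (cay S).dist (q i) (q j) + i ≤ j := by omega
      have h3 : (((cay S).dist (q i) (q j) : ℕ) : ℝ) + i ≤ j := by exact_mod_cast this
      linarith
    constructor
    · rw [sub_zero, div_le_iff₀ hWpos]
      linarith
    · nlinarith
  have hmorse := hN (W : ℝ) 0 hW1 le_rfl L q (by
    intro i j hi hj
    rcases le_total i j with h | h
    · exact key i j h hj
    · have := key j i h hi
      rw [abs_sub_comm, SimpleGraph.dist_comm]
      exact this) ⟨0, hq0⟩ ⟨2 * k, hqL⟩
  have hmorse' : ∀ i : ℕ, i ≤ L → ∃ t : ℕ, (cay S).dist (q i) (γ t) ≤ N0 := by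
    intro i hi
    obtain ⟨t, ht⟩ := hmorse i hi
    refine ⟨t, ?_⟩
    have : (((cay S).dist (q i) (γ t) : ℕ) : ℝ) ≤ (N0 : ℝ) := ht.trans (Nat.le_ceil _)
    exact_mod_cast this
  -- a vertex of q close to z
  have hclose : ∃ i ≤ L, (cay S).dist z (q i) ≤ M := by
    by_contra hcon
    push Not at hcon
    have hstep : ∀ i ≤ L, ∃ t < k, (cay S).dist (q i) (γ t) ≤ N0 := by
      intro i
      induction i with
      | zero =>
        intro _
        obtain ⟨t, ht⟩ := hmorse' 0 (Nat.zero_le _)
        refine ⟨t, ?_, ht⟩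
        rw [hq0, hgd 0 t (Nat.zero_le _)] at ht
        omega
      | succ i ih =>
        intro hi
        obtain ⟨t, htk, ht⟩ := ih (by omega)
        obtain ⟨t', ht'⟩ := hmorse' (i + 1) hi
        refine ⟨t', ?_, ht'⟩
        by_contra hk'
        push Not at hk'
        have h1 := hgd t t' (by omega)
        have h2 : (cay S).dist (γ t) (γ t') ≤ (cay S).dist (γ t) (q i) +
            (cay S).dist (q i) (γ t') := hc.dist_triangle
        have h3 : (cay S).dist (q i) (γ t') ≤ (cay S).dist (q i) (q (i + 1)) +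
            (cay S).dist (q (i + 1)) (γ t') := hc.dist_triangle
        have h4 : (cay S).dist (q i) (q (i + 1)) ≤ 1 := by
          have := hq.dist_le' (Nat.le_add_right i 1) hi
          omega
        have h5 : (cay S).dist (γ t) (q i) = (cay S).dist (q i) (γ t) :=
          SimpleGraph.dist_comm
        have h6 : (cay S).dist z (q (i + 1)) ≤ (cay S).dist z (γ t') +
            (cay S).dist (γ t') (q (i + 1)) := hc.dist_triangle
        have h7 : (cay S).dist (γ t') (q (i + 1)) = (cay S).dist (q (i + 1)) (γ t') :=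
          SimpleGraph.dist_comm
        have h8 := hgd k t' hk'
        have h9 := hcon (i + 1) hi
        rw [← hz] at h8
        omega
    obtain ⟨t, htk, ht⟩ := hstep L le_rfl
    rw [hqL, SimpleGraph.dist_comm, hgd t (2 * k) (by omega)] at ht
    omega
  obtain ⟨i0, hi0, hi0M⟩ := hclose
  have hfst : (cay S).dist z (q 0) = k := by
    rw [hq0, SimpleGraph.dist_comm, hgd 0 k (Nat.zero_le _)]
    omega
  have hlow : ∀ i ≤ i0, (cay S).dist z (q i) ≤ M + (i0 - i) := by
    intro i hi
    have h1 : (cay S).dist z (q i) ≤ (cay S).dist z (q i0) + (cay S).dist (q i0) (q i) :=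
      hc.dist_triangle
    have h2 := hq.dist_le' hi hi0
    have h3 : (cay S).dist (q i0) (q i) = (cay S).dist (q i) (q i0) := SimpleGraph.dist_comm
    omega
  have hi0k : k ≤ M + i0 := by
    have := hlow 0 (Nat.zero_le _)
    rw [hfst] at this
    omega
  set J : ℕ := m - M - 1 with hJ
  have hJi : J ≤ i0 := by omega
  -- cost of the last J steps before i0
  have d1 : cost w (i0 - J + J) q = cost w (i0 - J) q + cost w J (fun t => q (i0 - J + t)) :=
    cost_append w (fun t _ => rfl) (fun t _ => rfl)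
  have d2 : cost w (i0 + (L - i0)) q = cost w i0 q + cost w (L - i0) (fun t => q (i0 + t)) :=
    cost_append w (fun t _ => rfl) (fun t _ => rfl)
  rw [Nat.sub_add_cancel hJi] at d1
  rw [Nat.add_sub_cancel' hi0] at d2
  have d3 : cost w J (fun t => q (i0 - J + t)) = W * J := by
    unfold cost
    calc ∑ t ∈ Finset.range J, w (q (i0 - J + t)) = ∑ _t ∈ Finset.range J, W := by
          refine Finset.sum_congr rfl fun t ht => ?_
          have ht' := Finset.mem_range.mp ht
          simp only [w]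
          rw [if_pos]
          have h1 := hlow (i0 - J + t) (by omega)
          have h2 : (cay S).dist z (q (i0 - J + t)) ≤ m - 1 := by omega
          calc D * (cay S).dist z (q (i0 - J + t)) ≤ D * (m - 1) := Nat.mul_le_mul_left _ h2
            _ < D * m := by
              apply Nat.mul_lt_mul_of_pos_left
              · omega
              · omega
      _ = W * J := by simp [mul_comm]
  have d4 : W * J ≤ C1 * k := by omega
  have d5 : C1 * k < W * J := by
    have e1 : m + 1 ≤ 2 * J + 1 := by omega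
    have e2 : C1 * k = (C1 * D) * m := by rw [hk]; ring
    have e3 : 0 < J := by omega
    have e4 : m ≤ 2 * J := by omega
    rw [e2, hW]
    calc C1 * D * m ≤ C1 * D * (2 * J) := Nat.mul_le_mul_left _ e4
      _ < (2 * (C1 * D) + 1) * J := by
        have : (2 * (C1 * D) + 1) * J = C1 * D * (2 * J) + J := by ring
        omega
  omega

end Pool.Agent.H67.Morse
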